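import Pool.Agent.Helper57.TW.Goals

set_option autoImplicit false

open Finset

open scoped Classical

namespace Pool.Agent.Helper18.TW

open Pool.Agent.Helper57.TW (T1)
open Pool.Agent.Helper88.PP (SS Sf)

/-- the part of `d` composed of the primes `≤ u` -/
noncomputable def da (u d : ℕ) : ℕ := ∏ p ∈ d.primeFactors.filter (fun p => p ≤ u), p

/-- the part of `d` composed of the primes `> u` -/
noncomputable def db (u d : ℕ) : ℕ := ∏ p ∈ d.primeFactors.filter (fun p => ¬ p ≤ u), p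

theorem da_mul_db (u d : ℕ) (h : Squarefree d) : da u d * db u d = d := by
  rw [da, db, Finset.prod_filter_mul_prod_filter_not]
  exact Nat.prod_primeFactors_of_squarefree h

theorem prime_dvd_da {u d p : ℕ} (hp : p.Prime) (h : p ∣ da u d) : p ∣ d ∧ p ≤ u := by
  rw [da, hp.prime.dvd_finsetProd_iff] at h
  obtain ⟨q, hq, hpq⟩ := h
  rw [Finset.mem_filter, Nat.mem_primeFactors] at hq
  have e : p = q := (Nat.prime_dvd_prime_iff_eq hp hq.1.1).1 hpq
  subst e
  exact ⟨hq.1.2.1, hq.2⟩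

theorem prime_dvd_db {u d p : ℕ} (hp : p.Prime) (h : p ∣ db u d) : p ∣ d ∧ u < p := by
  rw [db, hp.prime.dvd_finsetProd_iff] at h
  obtain ⟨q, hq, hpq⟩ := h
  rw [Finset.mem_filter, Nat.mem_primeFactors] at hq
  have e : p = q := (Nat.prime_dvd_prime_iff_eq hp hq.1.1).1 hpq
  subst e
  exact ⟨hq.1.2.1, not_le.1 hq.2⟩

theorem e0 : Pool.Agent.Helper57.TW.StmtE0 := by
  intro w u p1 D f hf
  set S := (Icc 1 D).filter
    (fun d => Squarefree d ∧ (∀ p : ℕ, p.Prime → p ∣ d → w < p) ∧ ¬ p1 ∣ d) with hS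
  let F : (Σ _ : ℕ, ℕ) → ℝ := fun x => f (x.1 * x.2)
  let g : ℕ → (Σ _ : ℕ, ℕ) := fun d => ⟨da u d, db u d⟩
  have hsq : ∀ d ∈ S, Squarefree d := fun d hd => ((Finset.mem_filter.1 hd).2).1
  have hFg : ∀ d ∈ S, F (g d) = f d := by
    intro d hd
    show f (da u d * db u d) = f d
    rw [da_mul_db u d (hsq d hd)]
  have hinj : Set.InjOn g S := by
    intro d hd e he h
    have h1 : da u d = da u e := congrArg Sigma.fst h
    have h2 : db u d = db u e := by
      have := congrArg (fun x : (Σ _ : ℕ, ℕ) => x.2) h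
      exact this
    rw [← da_mul_db u d (hsq d hd), ← da_mul_db u e (hsq e he), h1, h2]
  have hsub : S.image g ⊆ (T1 w u p1 D).sigma (fun d1 => SS u (D / d1 + 1)) := by
    intro x hx
    obtain ⟨d, hd, rfl⟩ := Finset.mem_image.1 hx
    obtain ⟨hd1, hd2, hd3, hd4⟩ := Finset.mem_filter.1 hd
    rw [Finset.mem_Icc] at hd1
    have hm := da_mul_db u d hd2
    have hdpos : 0 < d := hd1.1
    have hda : 0 < da u d := Nat.pos_of_ne_zero (fun h0 => by rw [h0, zero_mul] at hm; omega)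
    have hdb : 0 < db u d := Nat.pos_of_ne_zero (fun h0 => by rw [h0, mul_zero] at hm; omega)
    have hdad : da u d ∣ d := ⟨db u d, hm.symm⟩
    have hdbd : db u d ∣ d := ⟨da u d, by rw [mul_comm]; exact hm.symm⟩
    rw [Finset.mem_sigma]
    refine ⟨?_, ?_⟩
    · show da u d ∈ T1 w u p1 D
      rw [T1, Finset.mem_filter, Finset.mem_Icc]
      refine ⟨⟨hda, (Nat.le_of_dvd hdpos hdad).trans hd1.2⟩, hd2.squarefree_of_dvd hdad, ?_, ?_⟩
      · intro p hp hpd
        have := prime_dvd_da hp hpd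
        exact ⟨hd3 p hp this.1, this.2⟩
      · intro h
        exact hd4 (h.trans hdad)
    · show db u d ∈ SS u (D / da u d + 1)
      rw [SS, Finset.mem_filter, Finset.mem_Ico]
      refine ⟨⟨hdb, Nat.lt_succ_of_le ?_⟩, hd2.squarefree_of_dvd hdbd, ?_⟩
      · rw [Nat.le_div_iff_mul_le hda, mul_comm, hm]
        exact hd1.2
      · intro p hp hpd
        exact (prime_dvd_db hp hpd).2
  calc ∑ d ∈ S, f d = ∑ d ∈ S, F (g d) := (Finset.sum_congr rfl hFg).symm
    _ = ∑ x ∈ S.image g, F x := (Finset.sum_image hinj).symm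
    _ ≤ ∑ x ∈ (T1 w u p1 D).sigma (fun d1 => SS u (D / d1 + 1)), F x :=
        Finset.sum_le_sum_of_subset_of_nonneg hsub (fun x _ _ => hf _)
    _ = ∑ d1 ∈ T1 w u p1 D, ∑ d2 ∈ SS u (D / d1 + 1), f (d1 * d2) := Finset.sum_sigma _ _ _

end Pool.Agent.Helper18.TW
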